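import Mathlib

/-!
# Long extremal square-free permutations: general facts

`Sq y i l` says that the two adjacent blocks of length `l` of the sequence `y` which start at `i` and
`i + l` are order-isomorphic.  The sequence `f` is an infinite square-free sequence: its terms with index
`4 n + 1` form a copy of `f` itself.
-/

set_option autoImplicit false

namespace Pool.Agent.Helper523_ExtSq

/-- The blocks `y i, …, y (i+l-1)` and `y (i+l), …, y (i+2l-1)` are order-isomorphic. -/
def Sq (y : ℕ → ℚ) (i l : ℕ) : Prop :=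
  ∀ a < l, ∀ b < l, (y (i + a) < y (i + b) ↔ y (i + l + a) < y (i + l + b))

/-- The infinite square-free sequence. -/
def f (n : ℕ) : ℚ :=
  if _h : n % 4 = 1 then f (n / 4) / 100
  else if n % 8 = 0 then 11 + 1 / ((n : ℚ) + 2)
  else if n % 8 = 2 then 10 + 1 / ((n : ℚ) + 2)
  else if n % 8 = 4 then 11 + 1 / ((n : ℚ) + 2)
  else if n % 8 = 6 then 12 + 1 / ((n : ℚ) + 2)
  else 50 + 1 / ((n : ℚ) + 2)
termination_by n
decreasing_by omega

lemma f_valley (n : ℕ) (h : n % 4 = 1) : f n = f (n / 4) / 100 := by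
  rw [f, dif_pos h]

lemma f_valley' (t : ℕ) : f (4 * t + 1) = f t / 100 := by
  rw [f_valley _ (by omega)]
  congr 2
  omega

lemma inv_pos' (n : ℕ) : 0 < 1 / ((n : ℚ) + 2) := by positivity

lemma inv_le' (n : ℕ) : 1 / ((n : ℚ) + 2) ≤ 1 / 2 := by
  apply one_div_le_one_div_of_le <;> [norm_num; skip]
  have : (0 : ℚ) ≤ n := by positivity
  linarith

lemma inv_lt' (m n : ℕ) (h : m < n) : 1 / ((n : ℚ) + 2) < 1 / ((m : ℚ) + 2) := by
  apply one_div_lt_one_div_of_lt
  · positivity
  · have : (m : ℚ) < n := by exact_mod_cast h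
    linarith

lemma f0 (n : ℕ) (h : n % 8 = 0) : f n = 11 + 1 / ((n : ℚ) + 2) := by
  rw [f]; split_ifs <;> first | omega | rfl
lemma f2 (n : ℕ) (h : n % 8 = 2) : f n = 10 + 1 / ((n : ℚ) + 2) := by
  rw [f]; split_ifs <;> first | omega | rfl
lemma f4 (n : ℕ) (h : n % 8 = 4) : f n = 11 + 1 / ((n : ℚ) + 2) := by
  rw [f]; split_ifs <;> first | omega | rfl
lemma f6 (n : ℕ) (h : n % 8 = 6) : f n = 12 + 1 / ((n : ℚ) + 2) := by
  rw [f]; split_ifs <;> first | omega | rfl
lemma f3 (n : ℕ) (h : n % 4 = 3) : f n = 50 + 1 / ((n : ℚ) + 2) := by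
  rw [f]; split_ifs <;> first | omega | rfl

lemma f_bound (n : ℕ) : 0 < f n ∧ f n < 60 := by
  induction n using Nat.strong_induction_on with
  | _ n ih =>
    have h1 := inv_pos' n
    have h2 := inv_le' n
    rcases (by omega : n % 4 = 1 ∨ n % 8 = 0 ∨ n % 8 = 2 ∨ n % 8 = 4 ∨ n % 8 = 6 ∨ n % 4 = 3) with
      h | h | h | h | h | h
    · rw [f_valley n h]
      obtain ⟨ha, hb⟩ := ih (n / 4) (by omega)
      constructor <;> linarith
    · rw [f0 n h]; constructor <;> linarith
    · rw [f2 n h]; constructor <;> linarith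
    · rw [f4 n h]; constructor <;> linarith
    · rw [f6 n h]; constructor <;> linarith
    · rw [f3 n h]; constructor <;> linarith

lemma f_valley_lt (n : ℕ) (h : n % 4 = 1) : f n < 1 := by
  rw [f_valley n h]
  have := f_bound (n / 4)
  linarith [this.2]

lemma f_mid_bd (n : ℕ) (h : n % 2 = 0) : 10 < f n ∧ f n < 13 := by
  have h1 := inv_pos' n
  have h2 := inv_le' n
  rcases (by omega : n % 8 = 0 ∨ n % 8 = 2 ∨ n % 8 = 4 ∨ n % 8 = 6) with h | h | h | h
  · rw [f0 n h]; constructor <;> linarith
  · rw [f2 n h]; constructor <;> linarith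
  · rw [f4 n h]; constructor <;> linarith
  · rw [f6 n h]; constructor <;> linarith

lemma f_peak_bd (n : ℕ) (h : n % 4 = 3) : 50 < f n := by
  have h1 := inv_pos' n
  rw [f3 n h]; linarith

lemma f_step (n : ℕ) : f n < f (n + 1) ↔ (n % 4 = 1 ∨ n % 4 = 2) := by
  rcases (by omega : n % 4 = 0 ∨ n % 4 = 1 ∨ n % 4 = 2 ∨ n % 4 = 3) with h | h | h | h
  · have h1 := f_mid_bd n (by omega)
    have h2 := f_valley_lt (n + 1) (by omega)
    constructor
    · intro h3; linarith [h1.1]
    · intro h3; omega
  · have h1 := f_valley_lt n h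
    have h2 := f_mid_bd (n + 1) (by omega)
    constructor
    · intro _; omega
    · intro _; linarith [h2.1]
  · have h1 := f_mid_bd n (by omega)
    have h2 := f_peak_bd (n + 1) (by omega)
    constructor
    · intro _; omega
    · intro _; linarith [h1.2]
  · have h1 := f_mid_bd (n + 1) (by omega)
    have h2 := f_peak_bd n (by omega)
    constructor
    · intro _; linarith [h1.2]
    · intro _; omega

lemma f_mid_step (n : ℕ) (h : n % 2 = 0) : f n < f (n + 2) ↔ (n % 8 = 2 ∨ n % 8 = 4) := by
  have h1 := inv_pos' n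
  have h2 := inv_le' n
  have h3 := inv_pos' (n + 2)
  have h4 := inv_le' (n + 2)
  rcases (by omega : n % 8 = 0 ∨ n % 8 = 2 ∨ n % 8 = 4 ∨ n % 8 = 6) with h | h | h | h
  · rw [f0 n h, f2 (n + 2) (by omega)]
    constructor
    · intro _; linarith
    · intro _; omega
  · rw [f2 n h, f4 (n + 2) (by omega)]
    constructor
    · intro _; omega
    · intro _; linarith
  · rw [f4 n h, f6 (n + 2) (by omega)]
    constructor
    · intro _; omega
    · intro _; linarith
  · rw [f6 n h, f0 (n + 2) (by omega)]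
    constructor
    · intro _; linarith
    · intro _; omega

lemma f_ne (m n : ℕ) (h : m < n) : f m ≠ f n := by
  induction n using Nat.strong_induction_on generalizing m with
  | _ n ih =>
    intro heq
    have a1 := inv_pos' n
    have a2 := inv_le' n
    have a3 := inv_pos' m
    have a4 := inv_le' m
    have a5 := inv_lt' m n h
    have b1 := f_valley_lt m
    have b2 := f_valley_lt n
    rcases (by omega : n % 4 = 1 ∨ n % 8 = 0 ∨ n % 8 = 2 ∨ n % 8 = 4 ∨ n % 8 = 6 ∨ n % 4 = 3) with
      hn | hn | hn | hn | hn | hn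
    · have b2' := b2 hn
      rcases (by omega : m % 4 = 1 ∨ m % 8 = 0 ∨ m % 8 = 2 ∨ m % 8 = 4 ∨ m % 8 = 6 ∨ m % 4 = 3) with
        hm | hm | hm | hm | hm | hm
      · rw [f_valley m hm, f_valley n hn] at heq
        exact ih (n / 4) (by omega) (m / 4) (by omega) (by linarith)
      · rw [f0 m hm] at heq; linarith
      · rw [f2 m hm] at heq; linarith
      · rw [f4 m hm] at heq; linarith
      · rw [f6 m hm] at heq; linarith
      · rw [f3 m hm] at heq; linarith
    all_goals
      rcases (by omega : m % 4 = 1 ∨ m % 8 = 0 ∨ m % 8 = 2 ∨ m % 8 = 4 ∨ m % 8 = 6 ∨ m % 4 = 3) with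
        hm | hm | hm | hm | hm | hm
      · have b1' := b1 hm
        first
        | (rw [f0 n hn] at heq; linarith)
        | (rw [f2 n hn] at heq; linarith)
        | (rw [f4 n hn] at heq; linarith)
        | (rw [f6 n hn] at heq; linarith)
        | (rw [f3 n hn] at heq; linarith)
      all_goals
        first
        | rw [f0 m hm] at heq
        | rw [f2 m hm] at heq
        | rw [f4 m hm] at heq
        | rw [f6 m hm] at heq
        | rw [f3 m hm] at heq
        first
        | (rw [f0 n hn] at heq; linarith)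
        | (rw [f2 n hn] at heq; linarith)
        | (rw [f4 n hn] at heq; linarith)
        | (rw [f6 n hn] at heq; linarith)
        | (rw [f3 n hn] at heq; linarith)

/-- The up-up-down-down shape forces the half-length of a square to be a multiple of four. -/
lemma sq_mod (y : ℕ → ℚ) (N : ℕ)
    (hy : ∀ k, k + 1 < N → (y k < y (k + 1) ↔ (k % 4 = 1 ∨ k % 4 = 2)))
    (i l : ℕ) (hl : 2 ≤ l) (hN : i + 2 * l ≤ N) (h : Sq y i l) : l % 4 = 0 := by
  have e1 := h 0 (by omega) 1 (by omega)
  have s1 := hy i (by omega)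
  have s2 := hy (i + l) (by omega)
  simp only [Nat.add_zero] at e1
  rw [s1, s2] at e1
  by_cases h2 : l = 2
  · exfalso; omega
  have e2 := h 1 (by omega) 2 (by omega)
  have s3 := hy (i + 1) (by omega)
  have s4 := hy (i + l + 1) (by omega)
  rw [show i + 1 + 1 = i + 2 from rfl] at s3
  rw [show i + l + 1 + 1 = i + l + 2 from rfl] at s4
  rw [s3, s4] at e2
  omega

lemma sq_four (y : ℕ → ℚ) (i : ℕ) (h : Sq y i 4)
    (hm : ∀ e, e % 2 = 0 → (e = i ∨ e = i + 1) →
      (y e < y (e + 2) ↔ ¬ (y (e + 4) < y (e + 6)))) : False := by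
  rcases (by omega : i % 2 = 0 ∨ i % 2 = 1) with h0 | h0
  · have a := hm i h0 (Or.inl rfl)
    have b := h 0 (by omega) 2 (by omega)
    simp only [Nat.add_zero] at b
    rw [show i + 4 + 2 = i + 6 from rfl] at b
    tauto
  · have a := hm (i + 1) (by omega) (Or.inr rfl)
    have b := h 1 (by omega) 3 (by omega)
    rw [show i + 1 + 2 = i + 3 by omega, show i + 1 + 4 = i + 4 + 1 by omega,
      show i + 1 + 6 = i + 4 + 3 by omega] at a
    tauto

/-- A square of half-length `4 m` gives a square of half-length `m` in the valleys. -/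
lemma sq_valley (y : ℕ → ℚ) (i m : ℕ) (h : Sq y i (4 * m)) :
    Sq (fun t => y (4 * t + 1)) ((i + 2) / 4) m := by
  intro a ha b hb
  obtain ⟨d, hd⟩ : ∃ d, 4 * ((i + 2) / 4) + 1 = i + d ∧ d ≤ 3 := ⟨4 * ((i + 2) / 4) + 1 - i, by omega, by omega⟩
  have key := h (d + 4 * a) (by omega) (d + 4 * b) (by omega)
  have e1 : 4 * ((i + 2) / 4 + a) + 1 = i + (d + 4 * a) := by omega
  have e2 : 4 * ((i + 2) / 4 + b) + 1 = i + (d + 4 * b) := by omega
  have e3 : 4 * ((i + 2) / 4 + m + a) + 1 = i + 4 * m + (d + 4 * a) := by omega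
  have e4 : 4 * ((i + 2) / 4 + m + b) + 1 = i + 4 * m + (d + 4 * b) := by omega
  simp only [e1, e2, e3, e4]
  exact key

theorem f_sqfree (l : ℕ) (hl : 2 ≤ l) (i : ℕ) : ¬ Sq f i l := by
  induction l using Nat.strong_induction_on generalizing i with
  | _ l ih =>
    intro h
    have hmod := sq_mod f (i + 2 * l + 1) (fun k _ => f_step k) i l hl (by omega) h
    by_cases h4 : l = 4
    · subst h4
      refine sq_four f i h (fun e he _ => ?_)
      rw [f_mid_step e he, show e + 6 = e + 4 + 2 from rfl, f_mid_step (e + 4) (by omega)]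
      omega
    · obtain ⟨m, rfl⟩ : ∃ m, l = 4 * m := ⟨l / 4, by omega⟩
      have hv := sq_valley f i m h
      refine ih m (by omega) (by omega) ((i + 2) / 4) ?_
      intro a ha b hb
      have := hv a ha b hb
      simp only [f_valley'] at this
      rw [div_lt_div_iff_of_pos_right (by norm_num), div_lt_div_iff_of_pos_right (by norm_num)] at this
      exact this

end Pool.Agent.Helper523_ExtSq
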