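import Pool.Agent.Helper523_ExtSq.Word

/-!
# Distinct values and insertions

The values of the words are distinct.  Inserting a new value creates a square: near the two ends this is a
finite check, elsewhere it follows from the shape.
-/

set_option autoImplicit false

namespace Pool.Agent.Helper523_ExtSq

/-- The ranges of the regular values. -/
def Rg (x : ℚ) : Prop :=
  (0 < x ∧ x < 1) ∨ (10 < x ∧ x < 13) ∨ (50 < x ∧ x < 60) ∨ (100 < x ∧ x < 201)

/-- The index of a special value. -/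
def P (s : ℕ) (x : ℚ) : ℕ :=
  if x = 16 then 0 else if x = 1 then 1 else if x = 2 then 2 else if x = 15 then 3
  else if x = 14 then 4 else if x = 13 then 6 else if x = 3 then 8 else if x = 4 then 10
  else if x = -1 then 16 * s + 12 else if x = 25 then 16 * s + 11 else if x = 24 then 16 * s + 10
  else if x = 21 then 16 * s + 8 else if x = 23 then 16 * s + 7 else if x = 22 then 16 * s + 6
  else if x = 302 then 16 * s + 4 else if x = 303 then 16 * s + 3 else 16 * s + 2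

lemma f_rg (n : ℕ) : Rg (f n) := by
  have h := f_bound n
  rcases (by omega : n % 4 = 1 ∨ n % 2 = 0 ∨ n % 4 = 3) with h1 | h1 | h1
  · exact Or.inl ⟨h.1, f_valley_lt n h1⟩
  · exact Or.inr (Or.inl (f_mid_bd n h1))
  · exact Or.inr (Or.inr (Or.inl ⟨f_peak_bd n h1, h.2⟩))

lemma w_cases (s : ℕ) (hs : 2 ≤ s) (n : ℕ) (hn : n < 16 * s + 13) :
    (¬ Rg (w s n) ∧ n = P s (w s n)) ∨ (Rg (w s n) ∧ n % 4 = 1 ∧ 2 ≤ n) ∨
    (100 < w s n ∧ w s n < 201 ∧ n % 4 ≠ 1 ∧ 7 ≤ n ∧ n ≤ 16 * s ∧ (n % 2 = 0 → 12 ≤ n)) := by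
  rcases (by omega : (n % 4 = 1 ∧ 2 ≤ n) ∨ (n % 2 = 0 ∧ 12 ≤ n ∧ n ≤ 16 * s) ∨
      (n % 4 = 3 ∧ 4 ≤ n ∧ n ≤ 16 * s) ∨ n = 0 ∨ n = 1 ∨ n = 2 ∨ n = 3 ∨ n = 4 ∨ n = 6 ∨ n = 8 ∨
      n = 10 ∨ n = 16 * s + 2 ∨ n = 16 * s + 3 ∨ n = 16 * s + 4 ∨ n = 16 * s + 6 ∨ n = 16 * s + 7 ∨
      n = 16 * s + 8 ∨ n = 16 * s + 10 ∨ n = 16 * s + 11 ∨ n = 16 * s + 12) with
    h | h | h | rfl | rfl | rfl | rfl | rfl | rfl | rfl | rfl | rfl | rfl | rfl | rfl | rfl | rfl |
    rfl | rfl | rfl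
  · right; left
    refine ⟨?_, h.1, h.2⟩
    rw [w_valley s (by omega) n h.1 h.2 (by omega)]
    exact f_rg _
  · right; right
    have := w_mid_bd s n h.1 h.2.1 h.2.2
    exact ⟨this.1, by linarith [this.2], by omega, by omega, h.2.2, fun _ => h.2.1⟩
  · right; right
    have := w_peak_bd s n h.1 h.2.1 h.2.2
    exact ⟨by linarith [this.1], this.2, by omega, by omega, h.2.2, fun _ => by omega⟩
  all_goals left
  · rw [w_0]; norm_num [Rg, P]
  · rw [w_1]; norm_num [Rg, P]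
  · rw [w_2 s (by omega)]; norm_num [Rg, P]
  · rw [w_3 s (by omega)]; norm_num [Rg, P]
  · rw [w_4 s (by omega)]; norm_num [Rg, P]
  · rw [w_6 s (by omega)]; norm_num [Rg, P]
  · rw [w_8 s (by omega)]; norm_num [Rg, P]
  · rw [w_10 s (by omega)]; norm_num [Rg, P]
  · rw [w_r2]; norm_num [Rg, P]
  · rw [w_r3]; norm_num [Rg, P]
  · rw [w_r4]; norm_num [Rg, P]
  · rw [w_r6]; norm_num [Rg, P]
  · rw [w_r7]; norm_num [Rg, P]
  · rw [w_r8]; norm_num [Rg, P]
  · rw [w_r10]; norm_num [Rg, P]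
  · rw [w_r11]; norm_num [Rg, P]
  · rw [w_r12]; norm_num [Rg, P]

lemma w_val (s n : ℕ) (h1 : n % 4 ≠ 1) (h2 : 7 ≤ n) (h3 : n ≤ 16 * s) (h4 : n % 2 = 0 → 12 ≤ n) :
    ∃ c : ℚ, (c = 100 ∨ c = 110 ∨ c = 120 ∨ c = 200) ∧ w s n = c + 1 / ((n : ℚ) + 2) := by
  rcases (by omega : n % 8 = 0 ∨ n % 8 = 2 ∨ n % 8 = 4 ∨ n % 8 = 6 ∨ n % 4 = 3) with h | h | h | h | h
  · exact ⟨100, by simp, w_m0 s n h (h4 (by omega)) h3⟩
  · exact ⟨110, by simp, w_m2 s n h (h4 (by omega)) h3⟩
  · exact ⟨120, by simp, w_m4 s n h (h4 (by omega)) h3⟩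
  · exact ⟨110, by simp, w_m6 s n h (h4 (by omega)) h3⟩
  · exact ⟨200, by simp, w_peak s n h (by omega) h3⟩

lemma w_ne (s : ℕ) (hs : 2 ≤ s) (m n : ℕ) (hmn : m < n) (hn : n < 16 * s + 13) :
    w s m ≠ w s n := by
  intro heq
  have cm := w_cases s hs m (by omega)
  have cn := w_cases s hs n hn
  rcases cm with ⟨a1, a2⟩ | ⟨a1, a2, a3⟩ | ⟨a1, a2, a3, a4, a5, a6⟩
  · rcases cn with ⟨b1, b2⟩ | ⟨b1, b2, b3⟩ | ⟨b1, b2, b3, b4, b5, b6⟩
    · rw [heq] at a2; omega
    · rw [heq] at a1; exact a1 b1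
    · rw [heq] at a1
      exact a1 (Or.inr (Or.inr (Or.inr ⟨b1, b2⟩)))
  · rcases cn with ⟨b1, b2⟩ | ⟨b1, b2, b3⟩ | ⟨b1, b2, b3, b4, b5, b6⟩
    · rw [heq] at a1; exact b1 a1
    · rw [w_valley s (by omega) m a2 a3 (by omega), w_valley s (by omega) n b2 b3 (by omega)] at heq
      exact f_ne _ _ (by omega) heq
    · have := w_valley_bd s (by omega) m a2 a3 (by omega)
      linarith [this.2]
  · rcases cn with ⟨b1, b2⟩ | ⟨b1, b2, b3⟩ | ⟨b1, b2, b3, b4, b5, b6⟩
    · rw [← heq] at b1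
      exact b1 (Or.inr (Or.inr (Or.inr ⟨a1, a2⟩)))
    · have := w_valley_bd s (by omega) n b2 b3 (by omega)
      linarith [this.2]
    · obtain ⟨c, hc, hcm⟩ := w_val s m a3 a4 a5 a6
      obtain ⟨d, hd, hdn⟩ := w_val s n b3 b4 b5 b6
      have i1 := inv_pos' n
      have i2 := inv_le' m
      have i3 := inv_lt' m n hmn
      have i4 := inv_le' n
      rw [hcm, hdn] at heq
      rcases hc with rfl | rfl | rfl | rfl <;> rcases hd with rfl | rfl | rfl | rfl <;> linarith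

/-- The sequence with `x` inserted after the first `p` terms. -/
def ins {α : Type} (y : ℕ → α) (p : ℕ) (x : α) (k : ℕ) : α :=
  if k < p then y k else if k = p then x else y (k - 1)

/-- The same for natural numbers. -/
def SqN (y : ℕ → ℕ) (i l : ℕ) : Prop :=
  ∀ a < l, ∀ b < l, (y (i + a) < y (i + b) ↔ y (i + l + a) < y (i + l + b))

instance (y : ℕ → ℕ) (i l : ℕ) : Decidable (SqN y i l) := by unfold SqN; infer_instance

lemma gap (n : ℕ) (g : ℕ → ℚ) (hg : ∀ r, 1 ≤ r → r < n → g r < g (r + 1)) (x : ℚ)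
    (hx : ∀ r, 1 ≤ r → r ≤ n → g r ≠ x) :
    ∃ v ≤ n, ∀ r, 1 ≤ r → r ≤ n → (g r < x ↔ r ≤ v) := by
  induction n with
  | zero => exact ⟨0, le_refl _, fun r h1 h2 => by omega⟩
  | succ n ih =>
    by_cases h : g (n + 1) < x
    · refine ⟨n + 1, le_refl _, fun r h1 h2 => ⟨fun _ => h2, fun _ => ?_⟩⟩
      have mono : ∀ j, r + j ≤ n + 1 → g r ≤ g (r + j) := by
        intro j
        induction j with
        | zero => intro _; exact le_refl _
        | succ j ihj =>
          intro hj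
          have := hg (r + j) (by omega) (by omega)
          exact le_trans (ihj (by omega)) (le_of_lt this)
      have := mono (n + 1 - r) (by omega)
      rw [show r + (n + 1 - r) = n + 1 by omega] at this
      exact lt_of_le_of_lt this h
    · obtain ⟨v, hv, hv2⟩ := ih (fun r h1 h2 => hg r h1 (by omega)) (fun r h1 h2 => hx r h1 (by omega))
      refine ⟨v, by omega, fun r h1 h2 => ?_⟩
      by_cases hr : r = n + 1
      · subst hr
        exact ⟨fun h' => absurd h' h, fun h' => by omega⟩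
      · exact hv2 r h1 (by omega)

/-- The finite check at an end transfers to every sequence with the right relative order. -/
theorem ext_end (y : ℕ → ℚ) (Q inv : ℕ → ℕ)
    (hchain : ∀ r, 1 ≤ r → r < 15 → y (inv r) < y (inv (r + 1)))
    (hinv : ∀ a < 15, inv (Q a) = a ∧ 1 ≤ Q a ∧ Q a ≤ 15)
    (hinv2 : ∀ r < 16, 1 ≤ r → inv r < 15)
    (htab : ∀ p < 3, ∀ v < 16,
      SqN (ins (fun k => 2 * Q k) p (2 * v + 1)) 0 2 ∨ SqN (ins (fun k => 2 * Q k) p (2 * v + 1)) 1 2 ∨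
      SqN (ins (fun k => 2 * Q k) p (2 * v + 1)) 0 4 ∨ SqN (ins (fun k => 2 * Q k) p (2 * v + 1)) 0 8)
    (p : ℕ) (hp : p < 3) (x : ℚ) (hx : ∀ a < 15, y a ≠ x) :
    ∃ i l, 2 ≤ l ∧ i + 2 * l ≤ 16 ∧ Sq (ins y p x) i l := by
  obtain ⟨v, hv, hv2⟩ := gap 15 (fun r => y (inv r)) hchain x
    (fun r h1 h2 => hx _ (hinv2 r (by omega) h1))
  have mono : ∀ r j, 1 ≤ r → r + (j + 1) ≤ 15 → y (inv r) < y (inv (r + (j + 1))) := by
    intro r j hr
    induction j with
    | zero => intro h; exact hchain r hr (by omega)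
    | succ j ihj =>
      intro h
      exact lt_trans (ihj (by omega)) (hchain (r + (j + 1)) (by omega) (by omega))
  have e1 : ∀ a < 15, ∀ b < 15, (y a < y b ↔ 2 * Q a < 2 * Q b) := by
    intro a ha b hb
    obtain ⟨ia, qa1, qa2⟩ := hinv a ha
    obtain ⟨ib, qb1, qb2⟩ := hinv b hb
    rcases lt_trichotomy (Q a) (Q b) with h | h | h
    · have := mono (Q a) (Q b - Q a - 1) qa1 (by omega)
      rw [show Q a + (Q b - Q a - 1 + 1) = Q b by omega, ia, ib] at this
      exact ⟨fun _ => by omega, fun _ => this⟩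
    · have : a = b := by rw [← ia, ← ib, h]
      subst this
      exact ⟨fun h' => absurd h' (lt_irrefl _), fun h' => by omega⟩
    · have := mono (Q b) (Q a - Q b - 1) qb1 (by omega)
      rw [show Q b + (Q a - Q b - 1 + 1) = Q a by omega, ia, ib] at this
      exact ⟨fun h' => absurd h' (lt_asymm this), fun h' => by omega⟩
  have e2 : ∀ a < 15, (y a < x ↔ 2 * Q a < 2 * v + 1) := by
    intro a ha
    obtain ⟨ia, qa1, qa2⟩ := hinv a ha
    have := hv2 (Q a) qa1 qa2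
    simp only [ia] at this
    rw [this]; omega
  have e3 : ∀ a < 15, (x < y a ↔ 2 * v + 1 < 2 * Q a) := by
    intro a ha
    have h1 := e2 a ha
    constructor
    · intro h
      have h2 : ¬ (y a < x) := lt_asymm h
      rw [h1] at h2; omega
    · intro h
      have h2 : ¬ (y a < x) := by rw [h1]; omega
      exact lt_of_le_of_ne (not_lt.mp h2) (fun h3 => hx a ha h3.symm)
  have key : ∀ a < 16, ∀ b < 16, (ins y p x a < ins y p x b ↔
      ins (fun k => 2 * Q k) p (2 * v + 1) a < ins (fun k => 2 * Q k) p (2 * v + 1) b) := by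
    intro a ha b hb
    unfold ins
    split_ifs with h1 h2 h3 h4 h5 h6 h7 h8
    · exact e1 a (by omega) b (by omega)
    · exact e2 a (by omega)
    · exact e1 a (by omega) (b - 1) (by omega)
    · exact e3 b (by omega)
    · simp
    · exact e3 (b - 1) (by omega)
    · exact e1 (a - 1) (by omega) b (by omega)
    · exact e2 (a - 1) (by omega)
    · exact e1 (a - 1) (by omega) (b - 1) (by omega)
  have tr : ∀ i l, i + 2 * l ≤ 16 → SqN (ins (fun k => 2 * Q k) p (2 * v + 1)) i l →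
      Sq (ins y p x) i l := by
    intro i l hil h a ha b hb
    rw [key _ (by omega) _ (by omega), key _ (by omega) _ (by omega)]
    exact h a ha b hb
  rcases htab p hp v (by omega) with h | h | h | h
  · exact ⟨0, 2, by omega, by omega, tr 0 2 (by omega) h⟩
  · exact ⟨1, 2, by omega, by omega, tr 1 2 (by omega) h⟩
  · exact ⟨0, 4, by omega, by omega, tr 0 4 (by omega) h⟩
  · exact ⟨0, 8, by omega, by omega, tr 0 8 (by omega) h⟩

/-- ranks of the first fifteen terms -/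
def QL (k : ℕ) : ℕ := [11, 2, 3, 10, 9, 7, 8, 15, 4, 1, 5, 14, 13, 6, 12].getD k 0
/-- the inverse of `QL` -/
def IL (k : ℕ) : ℕ := [0, 9, 1, 2, 8, 10, 13, 5, 6, 4, 3, 0, 14, 12, 11, 7].getD k 0
/-- ranks of the last fifteen terms, read backwards -/
def QR (k : ℕ) : ℕ := [1, 8, 7, 2, 4, 6, 5, 3, 14, 15, 13, 9, 10, 12, 11].getD k 0
/-- the inverse of `QR` -/
def IR (k : ℕ) : ℕ := [0, 0, 3, 7, 4, 6, 5, 2, 1, 11, 12, 14, 13, 10, 8, 9].getD k 0

set_option maxRecDepth 100000 in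
lemma tabL : ∀ p < 3, ∀ v < 16,
      SqN (ins (fun k => 2 * QL k) p (2 * v + 1)) 0 2 ∨ SqN (ins (fun k => 2 * QL k) p (2 * v + 1)) 1 2 ∨
      SqN (ins (fun k => 2 * QL k) p (2 * v + 1)) 0 4 ∨ SqN (ins (fun k => 2 * QL k) p (2 * v + 1)) 0 8 := by
  decide +kernel

set_option maxRecDepth 100000 in
lemma tabR : ∀ p < 3, ∀ v < 16,
      SqN (ins (fun k => 2 * QR k) p (2 * v + 1)) 0 2 ∨ SqN (ins (fun k => 2 * QR k) p (2 * v + 1)) 1 2 ∨
      SqN (ins (fun k => 2 * QR k) p (2 * v + 1)) 0 4 ∨ SqN (ins (fun k => 2 * QR k) p (2 * v + 1)) 0 8 := by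
  decide +kernel

theorem left_end (s : ℕ) (hs : 2 ≤ s) (p : ℕ) (hp : p < 3) (x : ℚ) (hx : ∀ a < 15, w s a ≠ x) :
    ∃ i l, 2 ≤ l ∧ i + 2 * l ≤ 16 ∧ Sq (ins (w s) p x) i l := by
  refine ext_end (w s) QL IL ?_ (by decide) (by decide) tabL p hp x hx
  intro r h1 h2
  have v14 : w s 14 = 110 + 1 / 16 := by
    rw [w_m6 s 14 (by norm_num) (by norm_num) (by omega)]; norm_num
  have v12 : w s 12 = 120 + 1 / 14 := by
    rw [w_m4 s 12 (by norm_num) (by norm_num) (by omega)]; norm_num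
  have v11 : w s 11 = 200 + 1 / 13 := by
    rw [w_peak s 11 (by norm_num) (by norm_num) (by omega)]; norm_num
  have v7 : w s 7 = 200 + 1 / 9 := by
    rw [w_peak s 7 (by norm_num) (by norm_num) (by omega)]; norm_num
  interval_cases r
  · show w s 9 < w s 1
    rw [w_9 s (by omega), w_1]; norm_num
  · show w s 1 < w s 2
    rw [w_1, w_2 s (by omega)]; norm_num
  · show w s 2 < w s 8
    rw [w_8 s (by omega), w_2 s (by omega)]; norm_num
  · show w s 8 < w s 10
    rw [w_8 s (by omega), w_10 s (by omega)]; norm_num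
  · show w s 10 < w s 13
    rw [w_13 s (by omega), w_10 s (by omega)]; norm_num
  · show w s 13 < w s 5
    rw [w_13 s (by omega), w_5 s (by omega)]; norm_num
  · show w s 5 < w s 6
    rw [w_5 s (by omega), w_6 s (by omega)]; norm_num
  · show w s 6 < w s 4
    rw [w_6 s (by omega), w_4 s (by omega)]; norm_num
  · show w s 4 < w s 3
    rw [w_4 s (by omega), w_3 s (by omega)]; norm_num
  · show w s 3 < w s 0
    rw [w_0, w_3 s (by omega)]; norm_num
  · show w s 0 < w s 14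
    rw [w_0, v14]; norm_num
  · show w s 14 < w s 12
    rw [v12, v14]; norm_num
  · show w s 12 < w s 11
    rw [v12, v11]; norm_num
  · show w s 11 < w s 7
    rw [v7, v11]; norm_num

theorem right_end (s : ℕ) (hs : 2 ≤ s) (p : ℕ) (hp : p < 3) (x : ℚ)
    (hx : ∀ a < 15, w s (16 * s + 12 - a) ≠ x) :
    ∃ i l, 2 ≤ l ∧ i + 2 * l ≤ 16 ∧ Sq (ins (fun k => w s (16 * s + 12 - k)) p x) i l := by
  refine ext_end (fun k => w s (16 * s + 12 - k)) QR IR ?_ (by decide) (by decide) tabR p hp x hx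
  intro r h1 h2
  have a9 : 0 < w s (16 * s + 9) ∧ w s (16 * s + 9) < 1 := by
    rw [w_valley s (by omega) _ (by omega) (by omega) (by omega)]
    exact ⟨(f_bound _).1, f_valley_lt _ (by omega)⟩
  have a5 : 10 < w s (16 * s + 5) ∧ w s (16 * s + 5) < 13 := by
    rw [w_valley s (by omega) _ (by omega) (by omega) (by omega)]
    exact f_mid_bd _ (by omega)
  have a1 : 50 < w s (16 * s + 1) ∧ w s (16 * s + 1) < 60 := by
    rw [w_valley s (by omega) _ (by omega) (by omega) (by omega)]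
    exact ⟨f_peak_bd _ (by omega), (f_bound _).2⟩
  have i0 := inv_pos' (16 * s)
  have i0' := inv_le' (16 * s)
  have a0 := w_m0 s (16 * s) (by omega) (by omega) (by omega)
  have i2 := inv_pos' (16 * s - 2)
  have i2' := inv_le' (16 * s - 2)
  have a2 := w_m6 s (16 * s - 2) (by omega) (by omega) (by omega)
  have a3 := w_peak_bd s (16 * s - 1) (by omega) (by omega) (by omega)
  interval_cases r
  · show w s (16 * s + 12 - 0) < w s (16 * s + 12 - 3)
    rw [show 16 * s + 12 - 0 = 16 * s + 12 by omega, show 16 * s + 12 - 3 = 16 * s + 9 by omega, w_r12]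
    linarith [a9.1]
  · show w s (16 * s + 12 - 3) < w s (16 * s + 12 - 7)
    rw [show 16 * s + 12 - 7 = 16 * s + 5 by omega, show 16 * s + 12 - 3 = 16 * s + 9 by omega]
    linarith [a9.2, a5.1]
  · show w s (16 * s + 12 - 7) < w s (16 * s + 12 - 4)
    rw [show 16 * s + 12 - 7 = 16 * s + 5 by omega, show 16 * s + 12 - 4 = 16 * s + 8 by omega, w_r8]
    linarith [a5.2]
  · show w s (16 * s + 12 - 4) < w s (16 * s + 12 - 6)
    rw [show 16 * s + 12 - 4 = 16 * s + 8 by omega, show 16 * s + 12 - 6 = 16 * s + 6 by omega, w_r8, w_r6]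
    norm_num
  · show w s (16 * s + 12 - 6) < w s (16 * s + 12 - 5)
    rw [show 16 * s + 12 - 5 = 16 * s + 7 by omega, show 16 * s + 12 - 6 = 16 * s + 6 by omega, w_r7, w_r6]
    norm_num
  · show w s (16 * s + 12 - 5) < w s (16 * s + 12 - 2)
    rw [show 16 * s + 12 - 5 = 16 * s + 7 by omega, show 16 * s + 12 - 2 = 16 * s + 10 by omega, w_r7, w_r10]
    norm_num
  · show w s (16 * s + 12 - 2) < w s (16 * s + 12 - 1)
    rw [show 16 * s + 12 - 1 = 16 * s + 11 by omega, show 16 * s + 12 - 2 = 16 * s + 10 by omega, w_r11, w_r10]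
    norm_num
  · show w s (16 * s + 12 - 1) < w s (16 * s + 12 - 11)
    rw [show 16 * s + 12 - 1 = 16 * s + 11 by omega, show 16 * s + 12 - 11 = 16 * s + 1 by omega, w_r11]
    linarith [a1.1]
  · show w s (16 * s + 12 - 11) < w s (16 * s + 12 - 12)
    rw [show 16 * s + 12 - 12 = 16 * s by omega, show 16 * s + 12 - 11 = 16 * s + 1 by omega, a0]
    linarith [a1.2]
  · show w s (16 * s + 12 - 12) < w s (16 * s + 12 - 14)
    rw [show 16 * s + 12 - 12 = 16 * s by omega, show 16 * s + 12 - 14 = 16 * s - 2 by omega, a0, a2]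
    linarith
  · show w s (16 * s + 12 - 14) < w s (16 * s + 12 - 13)
    rw [show 16 * s + 12 - 13 = 16 * s - 1 by omega, show 16 * s + 12 - 14 = 16 * s - 2 by omega, a2]
    linarith [a3.1]
  · show w s (16 * s + 12 - 13) < w s (16 * s + 12 - 10)
    rw [show 16 * s + 12 - 13 = 16 * s - 1 by omega, show 16 * s + 12 - 10 = 16 * s + 2 by omega, w_r2]
    linarith [a3.2]
  · show w s (16 * s + 12 - 10) < w s (16 * s + 12 - 8)
    rw [show 16 * s + 12 - 8 = 16 * s + 4 by omega, show 16 * s + 12 - 10 = 16 * s + 2 by omega, w_r2, w_r4]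
    norm_num
  · show w s (16 * s + 12 - 8) < w s (16 * s + 12 - 9)
    rw [show 16 * s + 12 - 8 = 16 * s + 4 by omega, show 16 * s + 12 - 9 = 16 * s + 3 by omega, w_r3, w_r4]
    norm_num

end Pool.Agent.Helper523_ExtSq
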