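import Pool.Agent.Helper523_ExtSq.Ends

/-!
# Assembly

Every insertion into the word `w s` creates a square.
-/

set_option autoImplicit false

namespace Pool.Agent.Helper523_ExtSq

lemma sq_two (y : ℕ → ℚ) (i : ℕ) (h1 : y i ≠ y (i + 1)) (h2 : y (i + 2) ≠ y (i + 3))
    (h : y i < y (i + 1) ↔ y (i + 2) < y (i + 3)) : Sq y i 2 := by
  intro a ha b hb
  have h3 : y (i + 1) < y i ↔ y (i + 3) < y (i + 2) := by
    rw [← not_iff_not, not_lt, not_lt]
    constructor
    · intro h4
      exact le_of_lt (h.1 (lt_of_le_of_ne h4 h1))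
    · intro h4
      exact le_of_lt (h.2 (lt_of_le_of_ne h4 h2))
  rcases (by omega : a = 0 ∨ a = 1) with rfl | rfl <;> rcases (by omega : b = 0 ∨ b = 1) with rfl | rfl
  · simp
  · exact h
  · exact h3
  · simp

/-- Insertions in the interior. -/
lemma interior (s : ℕ) (hs : 2 ≤ s) (p : ℕ) (hp1 : 3 ≤ p) (hp2 : p ≤ 16 * s + 10) (x : ℚ)
    (hx : ∀ a < 16 * s + 13, w s a ≠ x) :
    ∃ i l, 2 ≤ l ∧ i + 2 * l ≤ 16 * s + 14 ∧ Sq (ins (w s) p x) i l := by
  by_contra hcon
  push Not at hcon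
  set y := ins (w s) p x with hy
  have lo : ∀ k, k < p → y k = w s k := by
    intro k hk; rw [hy]; unfold ins; rw [if_pos hk]
  have mi : y p = x := by
    rw [hy]; unfold ins; rw [if_neg (by omega), if_pos rfl]
  have hi : ∀ k, p < k → y k = w s (k - 1) := by
    intro k hk; rw [hy]; unfold ins; rw [if_neg (by omega), if_neg (by omega)]
  have ne1 : ∀ a b, a < b → b < 16 * s + 13 → w s a ≠ w s b := fun a b => w_ne s hs a b
  have s1 := w_step s hs (p - 3) (by omega)
  have s2 := w_step s hs (p - 2) (by omega)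
  have s3 := w_step s hs p (by omega)
  have s4 := w_step s hs (p + 1) (by omega)
  have c1 : ¬ (y (p - 3) < y (p - 2) ↔ y (p - 1) < y p) := by
    intro h
    refine hcon (p - 3) 2 (le_refl _) (by omega) (sq_two y (p - 3) ?_ ?_ ?_)
    · rw [lo _ (by omega), lo _ (by omega)]; exact ne1 _ _ (by omega) (by omega)
    · rw [show p - 3 + 2 = p - 1 by omega, show p - 3 + 3 = p by omega, lo _ (by omega), mi]
      exact hx _ (by omega)
    · rw [show p - 3 + 1 = p - 2 by omega, show p - 3 + 2 = p - 1 by omega,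
        show p - 3 + 3 = p by omega]; exact h
  have c2 : ¬ (y (p - 1) < y p ↔ y (p + 1) < y (p + 2)) := by
    intro h
    refine hcon (p - 1) 2 (le_refl _) (by omega) (sq_two y (p - 1) ?_ ?_ ?_)
    · rw [show p - 1 + 1 = p by omega, lo _ (by omega), mi]; exact hx _ (by omega)
    · rw [show p - 1 + 2 = p + 1 by omega, show p - 1 + 3 = p + 2 by omega, hi _ (by omega),
        hi _ (by omega)]
      exact ne1 _ _ (by omega) (by omega)
    · rw [show p - 1 + 1 = p by omega, show p - 1 + 2 = p + 1 by omega,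
        show p - 1 + 3 = p + 2 by omega]; exact h
  have c3 : ¬ (y (p - 2) < y (p - 1) ↔ y p < y (p + 1)) := by
    intro h
    refine hcon (p - 2) 2 (le_refl _) (by omega) (sq_two y (p - 2) ?_ ?_ ?_)
    · rw [lo _ (by omega), lo _ (by omega)]; exact ne1 _ _ (by omega) (by omega)
    · rw [show p - 2 + 2 = p by omega, show p - 2 + 3 = p + 1 by omega, hi (p + 1) (by omega), mi]
      exact (hx _ (by omega)).symm
    · rw [show p - 2 + 1 = p - 1 by omega, show p - 2 + 2 = p by omega,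
        show p - 2 + 3 = p + 1 by omega]; exact h
  have c4 : ¬ (y p < y (p + 1) ↔ y (p + 2) < y (p + 3)) := by
    intro h
    refine hcon p 2 (le_refl _) (by omega) (sq_two y p ?_ ?_ h)
    · rw [hi (p + 1) (by omega), mi]; exact (hx _ (by omega)).symm
    · rw [hi (p + 2) (by omega), hi (p + 3) (by omega)]
      exact ne1 _ _ (by omega) (by omega)
  rw [lo (p - 3) (by omega), lo (p - 2) (by omega)] at c1
  rw [hi (p + 1) (by omega), hi (p + 2) (by omega)] at c2
  have e5 := w_step s hs (p - 2) (by omega)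
  rw [lo (p - 2) (by omega), lo (p - 1) (by omega)] at c3
  rw [hi (p + 2) (by omega), hi (p + 3) (by omega)] at c4
  rw [show p - 3 + 1 = p - 2 by omega] at s1
  rw [show p - 2 + 1 = p - 1 by omega] at s2
  simp only [Nat.add_sub_cancel] at c2 c4
  rw [show p + 2 - 1 = p + 1 by omega] at c2 c4
  rw [show p + 3 - 1 = p + 1 + 1 by omega] at c4
  rw [s1] at c1
  rw [s3] at c2
  rw [s2] at c3
  rw [s4] at c4
  rcases (by omega : p % 4 = 0 ∨ p % 4 = 1 ∨ p % 4 = 2 ∨ p % 4 = 3) with h | h | h | h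
  · have w1 : ((p - 3) % 4 = 1 ∨ (p - 3) % 4 = 2) := by omega
    have w2 : ¬ (p % 4 = 1 ∨ p % 4 = 2) := by omega
    exact c2 ⟨fun hA => absurd ⟨fun _ => hA, fun _ => w1⟩ c1, fun h => absurd h w2⟩
  · have w2 : ¬ ((p - 2) % 4 = 1 ∨ (p - 2) % 4 = 2) := by omega
    have w3 : ((p + 1) % 4 = 1 ∨ (p + 1) % 4 = 2) := by omega
    refine c3 ⟨fun h => absurd h w2, fun hB => ?_⟩
    exact absurd ⟨fun _ => w3, fun _ => hB⟩ c4
  · have w1 : ¬ ((p - 3) % 4 = 1 ∨ (p - 3) % 4 = 2) := by omega
    have w2 : (p % 4 = 1 ∨ p % 4 = 2) := by omega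
    refine c1 ⟨fun h => absurd h w1, fun hA => ?_⟩
    exact absurd ⟨fun _ => w2, fun _ => hA⟩ c2
  · have w2 : ((p - 2) % 4 = 1 ∨ (p - 2) % 4 = 2) := by omega
    have w3 : ¬ ((p + 1) % 4 = 1 ∨ (p + 1) % 4 = 2) := by omega
    exact c4 ⟨fun hB => absurd ⟨fun _ => hB, fun _ => w2⟩ c3, fun h => absurd h w3⟩

/-- Every insertion creates a square. -/
theorem w_extremal (s : ℕ) (hs : 2 ≤ s) (p : ℕ) (hp : p ≤ 16 * s + 13) (x : ℚ)
    (hx : ∀ a < 16 * s + 13, w s a ≠ x) :
    ∃ i l, 2 ≤ l ∧ i + 2 * l ≤ 16 * s + 14 ∧ Sq (ins (w s) p x) i l := by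
  rcases (by omega : p < 3 ∨ (3 ≤ p ∧ p ≤ 16 * s + 10) ∨ 16 * s + 10 < p) with h | ⟨h1, h2⟩ | h
  · obtain ⟨i, l, a, b, c⟩ := left_end s hs p h x (fun a ha => hx a (by omega))
    exact ⟨i, l, a, by omega, c⟩
  · exact interior s hs p h1 h2 x hx
  · obtain ⟨i, l, h2, hil, hsq⟩ := right_end s hs (16 * s + 13 - p) (by omega) x
      (fun a ha => hx _ (by omega))
    refine ⟨16 * s + 14 - i - 2 * l, l, h2, by omega, ?_⟩
    have rev : ∀ k, k ≤ 16 * s + 13 → ins (w s) p x k =
        ins (fun k => w s (16 * s + 12 - k)) (16 * s + 13 - p) x (16 * s + 13 - k) := by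
      intro k hk
      unfold ins
      split_ifs with h1 h2 h3 h4 h5 h6 h7 h8
      all_goals first
        | omega
        | rfl
        | (congr 1; omega)
    intro a ha b hb
    have key := hsq (l - 1 - b) (by omega) (l - 1 - a) (by omega)
    rw [rev _ (by omega), rev _ (by omega), rev _ (by omega), rev _ (by omega)]
    rw [show 16 * s + 13 - (16 * s + 14 - i - 2 * l + a) = i + l + (l - 1 - a) by omega,
      show 16 * s + 13 - (16 * s + 14 - i - 2 * l + b) = i + l + (l - 1 - b) by omega,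
      show 16 * s + 13 - (16 * s + 14 - i - 2 * l + l + a) = i + (l - 1 - a) by omega,
      show 16 * s + 13 - (16 * s + 14 - i - 2 * l + l + b) = i + (l - 1 - b) by omega]
    have key' := hsq (l - 1 - a) (by omega) (l - 1 - b) (by omega)
    exact key'.symm

/-- The word as a list. -/
def W (s : ℕ) : List ℚ := (List.range (16 * s + 13)).map (w s)

lemma W_length (s : ℕ) : (W s).length = 16 * s + 13 := by simp [W]

lemma W_getD (s k : ℕ) (hk : k < 16 * s + 13) : (W s).getD k 0 = w s k := by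
  simp [W, List.getD_eq_getElem?_getD, hk]

lemma W_ins_getD (s p k : ℕ) (x : ℚ) (hp : p ≤ 16 * s + 13) (hk : k < 16 * s + 14) :
    ((W s).take p ++ x :: (W s).drop p).getD k 0 = ins (w s) p x k := by
  have hl := W_length s
  rw [List.getD_eq_getElem?_getD]
  unfold ins
  split_ifs with h1 h2
  · rw [List.getElem?_append_left (by rw [List.length_take, hl]; omega), List.getElem?_take_of_lt h1]
    rw [← List.getD_eq_getElem?_getD]
    exact W_getD s k (by omega)
  · rw [List.getElem?_append_right (by rw [List.length_take, hl]; omega), List.length_take, hl,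
      show k - min p (16 * s + 13) = 0 by omega]
    simp
  · rw [List.getElem?_append_right (by rw [List.length_take, hl]; omega), List.length_take, hl,
      show k - min p (16 * s + 13) = (k - 1 - p) + 1 by omega, List.getElem?_cons_succ,
      List.getElem?_drop, show p + (k - 1 - p) = k - 1 by omega, ← List.getD_eq_getElem?_getD]
    exact W_getD s (k - 1) (by omega)

lemma W_mem (s a : ℕ) (ha : a < 16 * s + 13) : w s a ∈ W s :=
  List.mem_map.2 ⟨a, List.mem_range.2 ha, rfl⟩

theorem main : ∀ N : ℕ, ∃ w : List ℚ, N ≤ w.length ∧ w.Nodup ∧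
      (¬ ∃ i ℓ : ℕ, 2 ≤ ℓ ∧ i + 2 * ℓ ≤ w.length ∧
          ∀ a < ℓ, ∀ b < ℓ,
            (w.getD (i + a) 0 < w.getD (i + b) 0 ↔
              w.getD (i + ℓ + a) 0 < w.getD (i + ℓ + b) 0)) ∧
      ∀ p : ℕ, p ≤ w.length → ∀ x : ℚ, x ∉ w →
        ∃ i ℓ : ℕ, 2 ≤ ℓ ∧ i + 2 * ℓ ≤ w.length + 1 ∧
          ∀ a < ℓ, ∀ b < ℓ,
            ((w.take p ++ x :: w.drop p).getD (i + a) 0 <
                (w.take p ++ x :: w.drop p).getD (i + b) 0 ↔
              (w.take p ++ x :: w.drop p).getD (i + ℓ + a) 0 <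
                (w.take p ++ x :: w.drop p).getD (i + ℓ + b) 0) := by
  intro N
  obtain ⟨s, hs, hN⟩ : ∃ s, 2 ≤ s ∧ N ≤ 16 * s + 13 := ⟨N + 2, by omega, by omega⟩
  refine ⟨W s, by rw [W_length]; exact hN, ?_, ?_, ?_⟩
  · unfold W
    refine List.Nodup.map_on ?_ List.nodup_range
    intro a ha b hb hab
    rw [List.mem_range] at ha hb
    rcases lt_trichotomy a b with h | h | h
    · exact absurd hab (w_ne s hs a b h hb)
    · exact h
    · exact absurd hab.symm (w_ne s hs b a h ha)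
  · rintro ⟨i, l, hl, hil, h⟩
    rw [W_length] at hil
    refine w_sqfree s hs i l hl hil ?_
    intro a ha b hb
    have := h a ha b hb
    rwa [W_getD s _ (by omega), W_getD s _ (by omega), W_getD s _ (by omega),
      W_getD s _ (by omega)] at this
  · intro p hp x hx
    rw [W_length] at hp
    obtain ⟨i, l, h2, hil, hsq⟩ := w_extremal s hs p hp x
      (fun a ha h => hx (h ▸ W_mem s a ha))
    refine ⟨i, l, h2, by rw [W_length]; exact hil, ?_⟩
    intro a ha b hb
    rw [W_ins_getD s p _ x hp (by omega), W_ins_getD s p _ x hp (by omega),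
      W_ins_getD s p _ x hp (by omega), W_ins_getD s p _ x hp (by omega)]
    exact hsq a ha b hb

end Pool.Agent.Helper523_ExtSq
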