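import Pool.Agent.Helper523_ExtSq.Base

/-!
# The words

For `s ≥ 2` the word `w s 0, …, w s (16 s + 12)` has valleys at the indices congruent to one modulo four.
From the second one on the valleys are ordered like `f 0, f 1, …`.
-/

set_option autoImplicit false

namespace Pool.Agent.Helper523_ExtSq

/-- The regular values: copies of `f` in the valleys, then the other values in four classes. -/
def reg (n : ℕ) : ℚ :=
  if n % 4 = 1 then f (n / 4 - 1)
  else if n % 8 = 0 then 100 + 1 / ((n : ℚ) + 2)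
  else if n % 8 = 2 then 110 + 1 / ((n : ℚ) + 2)
  else if n % 8 = 4 then 120 + 1 / ((n : ℚ) + 2)
  else if n % 8 = 6 then 110 + 1 / ((n : ℚ) + 2)
  else 200 + 1 / ((n : ℚ) + 2)

/-- The values near the left end. -/
def lw (n : ℕ) : ℚ :=
  match n with
  | 0 => 16
  | 1 => 1
  | 2 => 2
  | 3 => 15
  | 4 => 14
  | 6 => 13
  | 8 => 3
  | 10 => 4
  | n => reg n

/-- The values near the right end; `k` is the distance to the end. -/
def rw' (k n : ℕ) : ℚ :=
  match k with
  | 0 => -1
  | 1 => 25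
  | 2 => 24
  | 4 => 21
  | 5 => 23
  | 6 => 22
  | 8 => 302
  | 9 => 303
  | 10 => 301
  | _ => reg n

/-- The word of length `16 s + 13`. -/
def w (s n : ℕ) : ℚ := if n ≤ 16 * s + 1 then lw n else rw' (16 * s + 12 - n) n

lemma lw_reg (n : ℕ) (h : n = 5 ∨ n = 7 ∨ n = 9 ∨ 11 ≤ n) : lw n = reg n := by
  unfold lw
  split <;> first | omega | rfl

lemma rw'_reg (k n : ℕ) (h : k % 4 = 3) : rw' k n = reg n := by
  unfold rw'
  split <;> first | omega | rfl

section vals
variable (s : ℕ)

lemma w_0 : w s 0 = 16 := by unfold w; rw [if_pos (by omega)]; rfl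
lemma w_1 : w s 1 = 1 := by unfold w; rw [if_pos (by omega)]; rfl
lemma w_l (hs : 1 ≤ s) (n : ℕ) (h : n ≤ 11) : w s n = lw n := by
  unfold w; rw [if_pos (by omega)]
lemma w_2 (hs : 1 ≤ s) : w s 2 = 2 := w_l s hs 2 (by norm_num)
lemma w_3 (hs : 1 ≤ s) : w s 3 = 15 := w_l s hs 3 (by norm_num)
lemma w_4 (hs : 1 ≤ s) : w s 4 = 14 := w_l s hs 4 (by norm_num)
lemma w_6 (hs : 1 ≤ s) : w s 6 = 13 := w_l s hs 6 (by norm_num)
lemma w_8 (hs : 1 ≤ s) : w s 8 = 3 := w_l s hs 8 (by norm_num)
lemma w_10 (hs : 1 ≤ s) : w s 10 = 4 := w_l s hs 10 (by norm_num)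

lemma w_rr (n k : ℕ) (h1 : 16 * s + 1 < n) (h2 : 16 * s + 12 - n = k) : w s n = rw' k n := by
  unfold w; rw [if_neg (by omega), h2]

lemma w_r12 : w s (16 * s + 12) = -1 := w_rr s _ 0 (by omega) (by omega)
lemma w_r11 : w s (16 * s + 11) = 25 := w_rr s _ 1 (by omega) (by omega)
lemma w_r10 : w s (16 * s + 10) = 24 := w_rr s _ 2 (by omega) (by omega)
lemma w_r8 : w s (16 * s + 8) = 21 := w_rr s _ 4 (by omega) (by omega)
lemma w_r7 : w s (16 * s + 7) = 23 := w_rr s _ 5 (by omega) (by omega)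
lemma w_r6 : w s (16 * s + 6) = 22 := w_rr s _ 6 (by omega) (by omega)
lemma w_r4 : w s (16 * s + 4) = 302 := w_rr s _ 8 (by omega) (by omega)
lemma w_r3 : w s (16 * s + 3) = 303 := w_rr s _ 9 (by omega) (by omega)
lemma w_r2 : w s (16 * s + 2) = 301 := w_rr s _ 10 (by omega) (by omega)

lemma reg_valley (n : ℕ) (h : n % 4 = 1) : reg n = f (n / 4 - 1) := by
  unfold reg; rw [if_pos h]
lemma reg_m0 (n : ℕ) (h : n % 8 = 0) : reg n = 100 + 1 / ((n : ℚ) + 2) := by
  unfold reg; split_ifs <;> first | omega | rfl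
lemma reg_m2 (n : ℕ) (h : n % 8 = 2) : reg n = 110 + 1 / ((n : ℚ) + 2) := by
  unfold reg; split_ifs <;> first | omega | rfl
lemma reg_m4 (n : ℕ) (h : n % 8 = 4) : reg n = 120 + 1 / ((n : ℚ) + 2) := by
  unfold reg; split_ifs <;> first | omega | rfl
lemma reg_m6 (n : ℕ) (h : n % 8 = 6) : reg n = 110 + 1 / ((n : ℚ) + 2) := by
  unfold reg; split_ifs <;> first | omega | rfl
lemma reg_peak (n : ℕ) (h : n % 4 = 3) : reg n = 200 + 1 / ((n : ℚ) + 2) := by
  unfold reg; split_ifs <;> first | omega | rfl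

lemma w_reg (n : ℕ) (h1 : 11 ≤ n) (h2 : n ≤ 16 * s + 1) : w s n = reg n := by
  unfold w; rw [if_pos h2, lw_reg n (by omega)]

lemma w_valley (_hs : 1 ≤ s) (n : ℕ) (h : n % 4 = 1) (h1 : 2 ≤ n) (h2 : n ≤ 16 * s + 12) :
    w s n = f (n / 4 - 1) := by
  unfold w
  split_ifs with hn
  · rw [lw_reg n (by omega), reg_valley n h]
  · rw [rw'_reg _ n (by omega), reg_valley n h]
lemma w_m0 (n : ℕ) (h : n % 8 = 0) (h1 : 12 ≤ n) (h2 : n ≤ 16 * s) :
    w s n = 100 + 1 / ((n : ℚ) + 2) := by
  rw [w_reg s n (by omega) (by omega), reg_m0 n h]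
lemma w_m2 (n : ℕ) (h : n % 8 = 2) (h1 : 12 ≤ n) (h2 : n ≤ 16 * s) :
    w s n = 110 + 1 / ((n : ℚ) + 2) := by
  rw [w_reg s n (by omega) (by omega), reg_m2 n h]
lemma w_m4 (n : ℕ) (h : n % 8 = 4) (h1 : 12 ≤ n) (h2 : n ≤ 16 * s) :
    w s n = 120 + 1 / ((n : ℚ) + 2) := by
  rw [w_reg s n (by omega) (by omega), reg_m4 n h]
lemma w_m6 (n : ℕ) (h : n % 8 = 6) (h1 : 12 ≤ n) (h2 : n ≤ 16 * s) :
    w s n = 110 + 1 / ((n : ℚ) + 2) := by
  rw [w_reg s n (by omega) (by omega), reg_m6 n h]
lemma w_peak (n : ℕ) (h : n % 4 = 3) (h1 : 4 ≤ n) (h2 : n ≤ 16 * s) :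
    w s n = 200 + 1 / ((n : ℚ) + 2) := by
  unfold w; rw [if_pos (by omega), lw_reg n (by omega), reg_peak n h]

lemma w_valley_bd (hs : 1 ≤ s) (n : ℕ) (h : n % 4 = 1) (h1 : 2 ≤ n) (h2 : n ≤ 16 * s + 12) :
    0 < w s n ∧ w s n < 60 := by
  rw [w_valley s hs n h h1 h2]; exact f_bound _

lemma w_mid_bd (n : ℕ) (h : n % 2 = 0) (h1 : 12 ≤ n) (h2 : n ≤ 16 * s) :
    100 < w s n ∧ w s n < 121 := by
  have a1 := inv_pos' n
  have a2 := inv_le' n
  rcases (by omega : n % 8 = 0 ∨ n % 8 = 2 ∨ n % 8 = 4 ∨ n % 8 = 6) with h | h | h | h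
  · rw [w_m0 s n h h1 h2]; constructor <;> linarith
  · rw [w_m2 s n h h1 h2]; constructor <;> linarith
  · rw [w_m4 s n h h1 h2]; constructor <;> linarith
  · rw [w_m6 s n h h1 h2]; constructor <;> linarith

lemma w_peak_bd (n : ℕ) (h : n % 4 = 3) (h1 : 4 ≤ n) (h2 : n ≤ 16 * s) :
    200 < w s n ∧ w s n < 201 := by
  have a1 := inv_pos' n
  have a2 := inv_le' n
  rw [w_peak s n h h1 h2]; constructor <;> linarith

lemma fv0 : f 0 = 23 / 2 := by rw [f0 0 (by norm_num)]; norm_num
lemma fv1 : f 1 = 23 / 200 := by rw [f_valley 1 (by norm_num)]; norm_num [fv0]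
lemma fv2 : f 2 = 41 / 4 := by rw [f2 2 (by norm_num)]; norm_num
lemma w_5 (hs : 1 ≤ s) : w s 5 = 23 / 2 := by
  rw [w_valley s hs 5 (by norm_num) (by norm_num) (by omega)]; norm_num [fv0]
lemma w_9 (hs : 1 ≤ s) : w s 9 = 23 / 200 := by
  rw [w_valley s hs 9 (by norm_num) (by norm_num) (by omega)]; norm_num [fv1]
lemma w_13 (hs : 1 ≤ s) : w s 13 = 41 / 4 := by
  rw [w_valley s hs 13 (by norm_num) (by norm_num) (by omega)]; norm_num [fv2]

end vals

lemma w_step (s : ℕ) (hs : 2 ≤ s) (k : ℕ) (hk : k + 1 < 16 * s + 13) :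
    w s k < w s (k + 1) ↔ (k % 4 = 1 ∨ k % 4 = 2) := by
  have p7 := w_peak_bd s 7 (by norm_num) (by norm_num) (by omega)
  have p11 := w_peak_bd s 11 (by norm_num) (by norm_num) (by omega)
  have m12 := w_mid_bd s 12 (by norm_num) (by norm_num) (by omega)
  rcases (by omega : k = 0 ∨ k = 1 ∨ k = 2 ∨ k = 3 ∨ k = 4 ∨ k = 5 ∨ k = 6 ∨ k = 7 ∨ k = 8 ∨ k = 9 ∨
    k = 10 ∨ k = 11 ∨ (12 ≤ k ∧ k + 1 ≤ 16 * s + 1) ∨ k = 16 * s + 1 ∨ k = 16 * s + 2 ∨
    k = 16 * s + 3 ∨ k = 16 * s + 4 ∨ k = 16 * s + 5 ∨ k = 16 * s + 6 ∨ k = 16 * s + 7 ∨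
    k = 16 * s + 8 ∨ k = 16 * s + 9 ∨ k = 16 * s + 10 ∨ k = 16 * s + 11) with
    rfl | rfl | rfl | rfl | rfl | rfl | rfl | rfl | rfl | rfl | rfl | rfl | ⟨h1, h2⟩ | rfl | rfl | rfl |
    rfl | rfl | rfl | rfl | rfl | rfl | rfl | rfl
  · norm_num [w_0, w_1]
  · norm_num [w_1, w_2 s (by omega)]
  · norm_num [w_2 s (by omega), w_3 s (by omega)]
  · norm_num [w_3 s (by omega), w_4 s (by omega)]
  · norm_num [w_4 s (by omega), w_5 s (by omega)]
  · norm_num [w_5 s (by omega), w_6 s (by omega)]
  · norm_num [w_6 s (by omega)]; linarith [p7.1]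
  · norm_num [w_8 s (by omega)]; linarith [p7.1]
  · norm_num [w_8 s (by omega), w_9 s (by omega)]
  · norm_num [w_9 s (by omega), w_10 s (by omega)]
  · norm_num [w_10 s (by omega)]; linarith [p11.1]
  · norm_num; linarith [p11.1, m12.2]
  · rcases (by omega : k % 4 = 0 ∨ k % 4 = 1 ∨ k % 4 = 2 ∨ k % 4 = 3) with h | h | h | h
    · have a := w_mid_bd s k (by omega) h1 (by omega)
      have b := w_valley_bd s (by omega) (k + 1) (by omega) (by omega) (by omega)
      constructor
      · intro _; linarith [a.1, b.2]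
      · intro _; omega
    · have a := w_valley_bd s (by omega) k (by omega) (by omega) (by omega)
      have b := w_mid_bd s (k + 1) (by omega) (by omega) (by omega)
      constructor
      · intro _; omega
      · intro _; linarith [a.2, b.1]
    · have a := w_mid_bd s k (by omega) h1 (by omega)
      have b := w_peak_bd s (k + 1) (by omega) (by omega) (by omega)
      constructor
      · intro _; omega
      · intro _; linarith [a.2, b.1]
    · have a := w_peak_bd s k (by omega) (by omega) (by omega)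
      have b := w_mid_bd s (k + 1) (by omega) (by omega) (by omega)
      constructor
      · intro _; linarith [a.1, b.2]
      · intro _; omega
  · have a := w_valley_bd s (by omega) (16 * s + 1) (by omega) (by omega) (by omega)
    rw [w_r2 s]
    constructor
    · intro _; omega
    · intro _; linarith [a.2]
  · rw [w_r2 s, w_r3 s]
    constructor
    · intro _; omega
    · intro _; norm_num
  · rw [w_r3 s, w_r4 s]
    constructor
    · intro h; norm_num at h
    · intro _; omega
  · have a := w_valley_bd s (by omega) (16 * s + 5) (by omega) (by omega) (by omega)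
    rw [w_r4 s]
    constructor
    · intro h; linarith [a.2]
    · intro _; omega
  · have a : w s (16 * s + 5) < 13 := by
      rw [w_valley s (by omega) _ (by omega) (by omega) (by omega)]
      exact (f_mid_bd _ (by omega)).2
    rw [w_r6 s]
    constructor
    · intro _; omega
    · intro _; linarith
  · rw [w_r6 s, w_r7 s]
    constructor
    · intro _; omega
    · intro _; norm_num
  · rw [w_r7 s, w_r8 s]
    constructor
    · intro h; norm_num at h
    · intro _; omega
  · have a : w s (16 * s + 9) < 1 := by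
      rw [w_valley s (by omega) _ (by omega) (by omega) (by omega)]
      exact f_valley_lt _ (by omega)
    rw [w_r8 s]
    constructor
    · intro h; linarith
    · intro _; omega
  · have a : w s (16 * s + 9) < 1 := by
      rw [w_valley s (by omega) _ (by omega) (by omega) (by omega)]
      exact f_valley_lt _ (by omega)
    rw [w_r10 s]
    constructor
    · intro _; omega
    · intro _; linarith
  · rw [w_r10 s, w_r11 s]
    constructor
    · intro _; omega
    · intro _; norm_num
  · rw [w_r11 s, w_r12 s]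
    constructor
    · intro h; norm_num at h
    · intro _; omega

lemma w_mid_step (s : ℕ) (hs : 2 ≤ s) (e : ℕ) (h0 : e % 2 = 0) (h1 : 2 ≤ e)
    (h2 : e + 2 ≤ 16 * s + 10) : w s e < w s (e + 2) ↔ (e % 8 = 0 ∨ e % 8 = 2) := by
  rcases (by omega : e = 2 ∨ e = 4 ∨ e = 6 ∨ e = 8 ∨ e = 10 ∨ (12 ≤ e ∧ e + 2 ≤ 16 * s) ∨ e = 16 * s ∨
    e = 16 * s + 2 ∨ e = 16 * s + 4 ∨ e = 16 * s + 6 ∨ e = 16 * s + 8) with
    rfl | rfl | rfl | rfl | rfl | ⟨h3, h4⟩ | rfl | rfl | rfl | rfl | rfl
  · norm_num [w_2 s (by omega), w_4 s (by omega)]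
  · norm_num [w_4 s (by omega), w_6 s (by omega)]
  · norm_num [w_6 s (by omega), w_8 s (by omega)]
  · norm_num [w_8 s (by omega), w_10 s (by omega)]
  · have a := w_mid_bd s 12 (by norm_num) (by norm_num) (by omega)
    norm_num [w_10 s (by omega)]; linarith [a.1]
  · have a1 := inv_pos' e
    have a2 := inv_le' e
    have a3 := inv_pos' (e + 2)
    have a4 := inv_le' (e + 2)
    rcases (by omega : e % 8 = 0 ∨ e % 8 = 2 ∨ e % 8 = 4 ∨ e % 8 = 6) with h | h | h | h
    · rw [w_m0 s e h h3 (by omega), w_m2 s (e + 2) (by omega) (by omega) h4]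
      constructor
      · intro _; omega
      · intro _; linarith
    · rw [w_m2 s e h h3 (by omega), w_m4 s (e + 2) (by omega) (by omega) h4]
      constructor
      · intro _; omega
      · intro _; linarith
    · rw [w_m4 s e h h3 (by omega), w_m6 s (e + 2) (by omega) (by omega) h4]
      constructor
      · intro _; linarith
      · intro _; omega
    · rw [w_m6 s e h h3 (by omega), w_m0 s (e + 2) (by omega) (by omega) h4]
      constructor
      · intro _; linarith
      · intro _; omega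
  · have a := w_mid_bd s (16 * s) (by omega) (by omega) (by omega)
    rw [w_r2 s]
    constructor
    · intro _; omega
    · intro _; linarith [a.2]
  · rw [w_r2 s, w_r4 s]
    constructor
    · intro _; omega
    · intro _; norm_num
  · rw [w_r4 s, w_r6 s]
    constructor
    · intro h; norm_num at h
    · intro _; omega
  · rw [w_r6 s, w_r8 s]
    constructor
    · intro h; norm_num at h
    · intro _; omega
  · rw [w_r8 s, w_r10 s]
    constructor
    · intro _; omega
    · intro _; norm_num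

/-- The words are square-free. -/
theorem w_sqfree (s : ℕ) (hs : 2 ≤ s) (i l : ℕ) (hl : 2 ≤ l) (hN : i + 2 * l ≤ 16 * s + 13) :
    ¬ Sq (w s) i l := by
  intro h
  have hmod := sq_mod (w s) (16 * s + 13) (fun k hk => w_step s hs k hk) i l hl hN h
  rcases (by omega : i = 0 ∨ (1 ≤ i ∧ l = 4) ∨ (i = 1 ∧ 8 ≤ l) ∨ (2 ≤ i ∧ 8 ≤ l)) with
    h0 | ⟨h1, rfl⟩ | ⟨rfl, h8⟩ | ⟨h2, h8⟩
  · -- start at zero
    subst h0
    have key := h 3 (by omega) 0 (by omega)
    simp only [Nat.zero_add, Nat.add_zero] at key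
    rw [w_3 s (by omega), w_0] at key
    have key2 : w s (l + 3) < w s l := key.1 (by norm_num)
    rcases (by omega : l = 4 ∨ l = 8 ∨ 12 ≤ l) with rfl | rfl | h12
    · have p7 := w_peak_bd s 7 (by norm_num) (by norm_num) (by omega)
      rw [w_4 s (by omega)] at key2
      norm_num at key2
      linarith [p7.1]
    · have p11 := w_peak_bd s 11 (by norm_num) (by norm_num) (by omega)
      rw [w_8 s (by omega)] at key2
      norm_num at key2
      linarith [p11.1]
    · have a := w_peak_bd s (l + 3) (by omega) (by omega) (by omega)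
      have b := w_mid_bd s l (by omega) (by omega) (by omega)
      linarith [a.1, b.2]
  · -- half-length four
    by_cases hi : i = 16 * s + 5
    · subst hi
      have key := h 0 (by omega) 3 (by omega)
      simp only [Nat.add_zero] at key
      rw [show 16 * s + 5 + 3 = 16 * s + 8 by ring, show 16 * s + 5 + 4 = 16 * s + 9 by ring,
        show 16 * s + 9 + 3 = 16 * s + 12 by ring, w_r8 s, w_r12] at key
      have a : w s (16 * s + 5) < 13 := by
        rw [w_valley s (by omega) _ (by omega) (by omega) (by omega)]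
        exact (f_mid_bd _ (by omega)).2
      have b := w_valley_bd s (by omega) (16 * s + 9) (by omega) (by omega) (by omega)
      have := key.1 (by linarith)
      linarith [b.1]
    · refine sq_four (w s) i h (fun e he hei => ?_)
      rw [w_mid_step s hs e he (by omega) (by omega), show e + 6 = e + 4 + 2 from rfl,
        w_mid_step s hs (e + 4) (by omega) (by omega) (by omega)]
      omega
  · -- start at one
    rcases (by omega : l = 8 ∨ 12 ≤ l) with rfl | h12
    · have key := h 7 (by omega) 4 (by omega)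
      norm_num [w_8 s (by omega), w_5 s (by omega), w_13 s (by omega)] at key
      have b := w_mid_bd s 16 (by norm_num) (by norm_num) (by omega)
      linarith [b.1]
    · have key := h 1 (by omega) 4 (by omega)
      rw [show 1 + 1 = 2 from rfl, show 1 + 4 = 5 from rfl, w_2 s (by omega), w_5 s (by omega)] at key
      have key2 := key.1 (by norm_num)
      have a := w_mid_bd s (1 + l + 1) (by omega) (by omega) (by omega)
      have b := w_valley_bd s (by omega) (1 + l + 4) (by omega) (by omega) (by omega)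
      linarith [a.1, b.2]
  · obtain ⟨m, rfl⟩ : ∃ m, l = 4 * m := ⟨l / 4, by omega⟩
    have hv := sq_valley (w s) i m h
    refine f_sqfree m (by omega) ((i + 2) / 4 - 1) ?_
    intro a ha b hb
    have key := hv a ha b hb
    simp only at key
    rw [w_valley s (by omega) _ (by omega) (by omega) (by omega), w_valley s (by omega) _ (by omega) (by omega) (by omega),
      w_valley s (by omega) _ (by omega) (by omega) (by omega), w_valley s (by omega) _ (by omega) (by omega) (by omega)] at key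
    have e1 : (4 * ((i + 2) / 4 + a) + 1) / 4 - 1 = (i + 2) / 4 - 1 + a := by omega
    have e2 : (4 * ((i + 2) / 4 + b) + 1) / 4 - 1 = (i + 2) / 4 - 1 + b := by omega
    have e3 : (4 * ((i + 2) / 4 + m + a) + 1) / 4 - 1 = (i + 2) / 4 - 1 + m + a := by omega
    have e4 : (4 * ((i + 2) / 4 + m + b) + 1) / 4 - 1 = (i + 2) / 4 - 1 + m + b := by omega
    rw [e1, e2, e3, e4] at key
    exact key

end Pool.Agent.Helper523_ExtSq
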